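import Pool.Agent.H174.GP.StD
import Pool.Agent.H174.GP.StP
import Pool.Agent.H960.GP174.PU

/-!
# GP PU2: persistence with perturbations and without the first coordinate
-/

open MeasureTheory ProbabilityTheory Finset Filter Topology

namespace Pool.Agent.H996.GP174

open Pool.Agent.H174.GP
open Pool.Agent.H960.GP174 (Pos Pos_meas Pos_dep Pos_upper ev_log)

/-- Harris for two sets of times -/
lemma harris2 (h : S_harrisN) (L : ℕ) (X Y : Finset ℕ) :
    PP.real (Pos L X) * PP.real (Pos L Y) ≤ PP.real (Pos L (X ∪ Y)) := by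
  have h1 := h (Finset.Icc 1 L) (Finset.range 2) (fun i => if i = 0 then Pos L X else Pos L Y)
    (fun i _ => by split_ifs <;> exact Pos_meas _ _)
    (fun i _ => by split_ifs <;> exact Pos_dep _ _)
    (fun i _ => by split_ifs <;> exact Pos_upper _ _)
  rw [Finset.prod_range_succ, Finset.prod_range_one, if_pos rfl,
    if_neg (one_ne_zero : (1 : ℕ) ≠ 0)] at h1
  refine h1.trans (measureReal_mono ?_)
  intro ω hω x hx
  rw [Set.mem_iInter₂] at hω
  have g0 := hω 0 (by simp)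
  have g1 := hω 1 (by simp)
  rw [if_pos rfl] at g0
  rw [if_neg (one_ne_zero : (1 : ℕ) ≠ 0)] at g1
  rcases Finset.mem_union.1 hx with hx | hx
  · exact g0 x hx
  · exact g1 x hx

/-- the chain of inequalities for the Laplace process -/
lemma core2 (h3 : S_shiftC) (h5 : S_harrisN) {c κ1 : ℝ} (hc : 0 < c)
    (h4 : ∀ a b L : ℕ, 1 ≤ a → a ≤ b → b ≤ L →
      c * ((a : ℝ) / b) ^ κ1 ≤ PP.real {ω | ∀ x ∈ Finset.Icc a b, 0 ≤ Ch ω L x})
    {e : ℝ} (he : 0 < e) (he1 : e ≤ 1) {L L2 x0 : ℕ} (hL2 : 1 ≤ L2) (hL : L2 ≤ L) (hx0 : 1 ≤ x0)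
    (hxL : x0 ≤ L) :
    (PP.real {ω | ∀ x ∈ Finset.Icc x0 L2, -(e / 4 * Real.sqrt x) ≤ Ch ω L x}) ^ (1 + e) *
      Real.exp (-((4 / e) * ((e / 4) ^ 2 * (1 + Real.log L)))) * (c * ((L2 : ℝ) / L) ^ κ1) *
      (c * (((1 : ℕ) : ℝ) / x0) ^ κ1) ≤ uu L := by
  have a1 := h3 e (e / 4) L (Finset.Icc x0 L2) (fun x => -(e / 4 * Real.sqrt x)) he he1
    (by positivity) le_rfl (hL2.trans hL) (Finset.Icc_subset_Icc hx0 hL)
  have a2 := h4 L2 L L hL2 hL le_rfl
  have a2' := h4 1 x0 L le_rfl hx0 hxL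
  have a3 := harris2 h5 L (Finset.Icc x0 L2) (Finset.Icc L2 L)
  have a3' := harris2 h5 L (Finset.Icc x0 L2 ∪ Finset.Icc L2 L) (Finset.Icc 1 x0)
  have a4 : PP.real (Pos L (Finset.Icc x0 L2 ∪ Finset.Icc L2 L ∪ Finset.Icc 1 x0)) ≤ uu L := by
    refine measureReal_mono ?_
    intro ω w x hx
    refine w x ?_
    rw [Finset.mem_Icc] at hx
    simp only [Finset.mem_union, Finset.mem_Icc]
    omega
  have a5 : {ω : ℕ → ℝ | ∀ x ∈ Finset.Icc x0 L2, -(e / 4 * Real.sqrt x) + e / 4 * Real.sqrt x ≤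
      Ch ω L x} = Pos L (Finset.Icc x0 L2) := by
    ext ω
    simp [Pos]
  rw [a5] at a1
  refine le_trans ?_ (a3'.trans a4)
  refine mul_le_mul (le_trans ?_ a3) a2' (by positivity) measureReal_nonneg
  exact mul_le_mul a1 a2 (by positivity) measureReal_nonneg

/-- the deterministic part -/
lemma det2 {σ t e s2 : ℝ} {ω : ℕ → ℝ} {d L L2 x0 : ℕ} (hσ : 0 < σ) (ht : 1 ≤ t) (he : 0 < e)
    (hs2 : 0 < s2) (hL : 1 ≤ L) (hL2 : L2 ≤ L) (hLd : L ≤ d) (hx0 : 1 ≤ x0)
    (hx0t : t ^ 4 ≤ x0) (hq : (L2 : ℝ) * t ^ 4 ≤ L) (hs : σ * d ≤ s2)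
    (hst : 16 * (1 + 2 * s2) ≤ e * t) (h1 : |ω 1| < t)
    (hT : |(Tq (σ * (1 : ℕ)) (ω 1) : ℝ) - ω 1 / (σ * (1 : ℕ))| ≤ 1)
    (h2 : ∀ x ∈ Finset.Icc 1 L, |Cg σ ω L x - Ch ω L x / σ| < x * Real.sqrt L * t)
    (h3 : ∀ k ∈ Finset.Icc x0 L2, -((d : ℝ) * t + k * ((d : ℝ) / Real.sqrt L) * t)
      ≤ ∑ j ∈ Finset.Icc 2 L, ((min j k : ℕ) : ℝ) * (geo σ ω j : ℝ)) :
    ∀ x ∈ Finset.Icc x0 L2, -(e / 4 * Real.sqrt x) ≤ Ch ω L x := by
  intro k hk
  have hk' := Finset.mem_Icc.1 hk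
  have hk1 : 1 ≤ k := hx0.trans hk'.1
  have hkL : k ≤ L := hk'.2.trans hL2
  have hL0 : (0 : ℝ) < L := by exact_mod_cast hL
  have hk0 : (0 : ℝ) < k := by exact_mod_cast hk1
  have hd1 : (1 : ℝ) ≤ d := by exact_mod_cast hL.trans hLd
  have hLd' : (L : ℝ) ≤ d := by exact_mod_cast hLd
  have ht0 : 0 < t := by linarith
  have h3k := h3 k hk
  set r := Real.sqrt L with hr
  have hr0 : 0 < r := Real.sqrt_pos.2 hL0
  have hrr : r * r = L := Real.mul_self_sqrt hL0.le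
  set w := Real.sqrt k with hw
  have hw0 : 0 < w := Real.sqrt_pos.2 hk0
  have hww : w * w = k := Real.mul_self_sqrt hk0.le
  -- sizes of `w`
  have hw1 : t * t ≤ w := by
    refine abs_le_of_sq_le_sq' ?_ hw0.le |>.2
    calc (t * t) ^ 2 = t ^ 4 := by ring
      _ ≤ (x0 : ℝ) := hx0t
      _ ≤ k := by exact_mod_cast hk'.1
      _ = w ^ 2 := by rw [sq, hww]
  have hw2 : w * (t * t) ≤ r := by
    refine abs_le_of_sq_le_sq' ?_ hr0.le |>.2
    calc (w * (t * t)) ^ 2 = (w * w) * t ^ 4 := by ring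
      _ = k * t ^ 4 := by rw [hww]
      _ ≤ L2 * t ^ 4 := mul_le_mul_of_nonneg_right (by exact_mod_cast hk'.2) (by positivity)
      _ ≤ L := hq
      _ = r ^ 2 := by rw [sq, hrr]
  -- the first coordinate
  have c0 : Cg σ ω L k = (geo σ ω 1 : ℝ) +
      ∑ j ∈ Finset.Icc 2 L, ((min j k : ℕ) : ℝ) * (geo σ ω j : ℝ) := by
    unfold Cg Cs
    rw [← Finset.add_sum_Ioc_eq_sum_Icc hL, Nat.min_eq_left hk1]
    have h : Finset.Ioc 1 L = Finset.Icc 2 L := by
      ext j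
      simp only [Finset.mem_Ioc, Finset.mem_Icc]
      omega
    rw [h, Nat.cast_one, one_mul]
  have c1 : -(t / σ) - 1 ≤ (geo σ ω 1 : ℝ) := by
    have g1 := (abs_le.1 hT).1
    have g2 := (abs_lt.1 h1).1
    rw [Nat.cast_one, mul_one] at g1
    have g3 : -(t / σ) ≤ ω 1 / σ := by
      rw [← neg_div]
      exact div_le_div_of_nonneg_right g2.le hσ.le
    have g4 : (geo σ ω 1 : ℝ) = (Tq σ (ω 1) : ℝ) := by
      unfold geo
      rw [Nat.cast_one, mul_one]
    rw [g4]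
    linarith
  have e5 := (abs_lt.1 (h2 k (Finset.mem_Icc.2 ⟨hk1, hkL⟩))).2
  have e6 : -(t / σ) - 1 - (d * t + k * (d / r) * t) ≤ Cg σ ω L k := by
    rw [c0]
    linarith
  have e7 : Cg σ ω L k - k * r * t ≤ Ch ω L k / σ := by linarith
  have e8 : σ * (Cg σ ω L k - k * r * t) ≤ Ch ω L k := by
    rw [le_div_iff₀ hσ] at e7
    linarith
  have e9 : σ * (-(t / σ) - 1 - (d * t + k * (d / r) * t) - k * r * t) ≤ Ch ω L k :=
    (mul_le_mul_of_nonneg_left (by linarith) hσ.le).trans e8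
  have e10 : σ * (-(t / σ) - 1 - (d * t + k * (d / r) * t) - k * r * t) =
      -(t + σ + σ * d * t + σ * d * (k * t / r) + σ * k * r * t) := by
    field_simp
    ring
  rw [e10] at e9
  have hσ2 : σ ≤ s2 := by
    have : σ * 1 ≤ σ * d := mul_le_mul_of_nonneg_left hd1 hσ.le
    linarith
  have f1 : t + σ + σ * d * t ≤ e / 16 * w := by
    have g1 : σ * d * t ≤ s2 * t := mul_le_mul_of_nonneg_right hs ht0.le
    have g2 : s2 ≤ s2 * t := le_mul_of_one_le_right hs2.le ht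
    have g3 : (1 + 2 * s2) * t ≤ e / 16 * (t * t) := by
      have := mul_le_mul_of_nonneg_right hst ht0.le
      linarith
    have g4 : e / 16 * (t * t) ≤ e / 16 * w := mul_le_mul_of_nonneg_left hw1 (by positivity)
    linarith
  have hs3 : s2 ≤ e / 16 * t := by linarith
  have f2 : σ * d * (k * t / r) ≤ e / 16 * w := by
    have g1 : k * t / r ≤ w / t := by
      rw [div_le_div_iff₀ hr0 ht0, ← hww]
      calc w * w * t * t = w * (w * (t * t)) := by ring
        _ ≤ w * r := mul_le_mul_of_nonneg_left hw2 hw0.le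
    calc σ * d * (k * t / r) ≤ s2 * (w / t) := mul_le_mul hs g1 (by positivity) hs2.le
      _ ≤ e / 16 * t * (w / t) := mul_le_mul_of_nonneg_right hs3 (by positivity)
      _ = e / 16 * w := by field_simp
  have f3 : σ * k * r * t ≤ e / 16 * w := by
    have g1 : w * t * r ≤ L / t := by
      rw [le_div_iff₀ ht0, ← hrr]
      calc w * t * r * t = w * (t * t) * r := by ring
        _ ≤ r * r := mul_le_mul_of_nonneg_right hw2 hr0.le
    have g2 : σ * L ≤ s2 := (mul_le_mul_of_nonneg_left hLd' hσ.le).trans hs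
    calc σ * k * r * t = σ * w * (w * t * r) := by rw [← hww]; ring
      _ ≤ σ * w * (L / t) := mul_le_mul_of_nonneg_left g1 (by positivity)
      _ = σ * L * (w / t) := by ring
      _ ≤ s2 * (w / t) := mul_le_mul_of_nonneg_right g2 (by positivity)
      _ ≤ e / 16 * t * (w / t) := mul_le_mul_of_nonneg_right hs3 (by positivity)
      _ = e / 16 * w := by field_simp
  have f4 : 0 < e * w := by positivity
  linarith

/-- the tail of one coordinate -/
lemma tail1 (h1 : S_L3) {t : ℝ} (ht : 0 ≤ t) :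
    PP.real {ω : ℕ → ℝ | t ≤ |ω 1|} = Real.exp (-t) := by
  have hm : MeasurableSet {x : ℝ | t ≤ |x|} :=
    measurableSet_le measurable_const measurable_norm
  have h := (measurePreserving_eval_infinitePi (fun _ : ℕ => lap) 1).measureReal_preimage
    hm.nullMeasurableSet
  rw [← h1.2.1 t ht, ← h]
  rfl

theorem gp_pu2 (h1 : S_L3) (h2 : S_Tq) (h3 : S_float) (h4 : S_shiftC) (h5 : S_step)
    (h6 : S_harrisN) : Pool.Agent.H174.GP.S_PU2 := by
  intro θ s1 s2 ε hθ hT hs1 hs2 hε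
  obtain ⟨c, hc, κ1, hκ1, -, -, h4b, h4c, -⟩ := h5
  -- the parameter `e`
  obtain ⟨e0, he0, he02, he03⟩ : ∃ e : ℝ, 0 < e ∧ e ≤ 1 / 2 ∧ e * (2 * θ + 5) ≤ ε / 2 := by
    refine ⟨min (1 / 2) (ε / (4 * θ + 10)), lt_min (by norm_num) (by positivity),
      min_le_left _ _, ?_⟩
    have h : min (1 / 2) (ε / (4 * θ + 10)) * (2 * θ + 5) ≤ ε / (4 * θ + 10) * (2 * θ + 5) :=
      mul_le_mul_of_nonneg_right (min_le_right _ _) (by positivity)
    refine h.trans_eq ?_
    have : 4 * θ + 10 ≠ 0 := by positivity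
    field_simp
    ring
  refine ⟨e0, he0, by linarith, fun e he hee => ?_⟩
  have he2 : e ≤ 1 / 2 := hee.trans he02
  have he3 : e * (2 * θ + 5) ≤ ε / 2 :=
    (mul_le_mul_of_nonneg_right hee (by positivity)).trans he03
  have he1 : e ≤ 1 := by linarith
  have he4 : 0 < 1 - e := by linarith
  have tD : Tendsto (fun d : ℕ => (d : ℝ)) atTop atTop := tendsto_natCast_atTop_atTop
  have tL : Tendsto (fun d : ℕ => ⌊(d : ℝ) ^ (1 - e)⌋₊) atTop atTop :=
    tendsto_nat_floor_atTop.comp ((tendsto_rpow_atTop he4).comp tD)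
  -- the exponent
  have E2 : ∀ᶠ L : ℕ in atTop, uu L ≤ (L : ℝ) ^ (-θ + e) := by
    have hT1 := hT.eventually (lt_mem_nhds (show θ - e < θ by linarith))
    filter_upwards [hT1, eventually_ge_atTop 2] with L hL1 hL2
    have hL3 : (1 : ℝ) < L := by exact_mod_cast hL2
    have hlog : 0 < Real.log L := Real.log_pos hL3
    have hu : 0 < uu L :=
      lt_of_lt_of_le (mul_pos hc (Real.rpow_pos_of_pos (by linarith) _)) (h4c L (by omega))
    rw [lt_div_iff₀ hlog] at hL1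
    rw [Real.rpow_def_of_pos (by linarith : (0:ℝ) < L), ← Real.log_le_iff_le_exp hu]
    linarith
  -- eventual conditions
  have A0 := tD.eventually (eventually_ge_atTop (Real.exp 1))
  have A1 := tD.eventually (Real.tendsto_log_atTop.eventually_ge_atTop
    (16 * (1 + 2 * s2) / e))
  have A2 := tL.eventually E2
  have A3 := tD.eventually (ev_log 4 (1 - e) he4 8)
  have A4 := tD.eventually (ev_log 2 (e / κ1) (by positivity) 8)
  have A5 := tD.eventually ((tendsto_rpow_atTop he).eventually_ge_atTop (3 * 2 ^ θ / (c * c)))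
  have A6 := tD.eventually ((tendsto_rpow_atTop (show 0 < ε / 2 by positivity)).eventually_ge_atTop 3)
  have A7 := tD.eventually (Real.tendsto_log_atTop.eventually_ge_atTop (4 * (θ + 2)))
  have A8 := tD.eventually (eventually_ge_atTop 9)
  have A9 := tL.eventually (eventually_ge_atTop 1)
  obtain ⟨d0, hd0⟩ := eventually_atTop.1 (A0.and (A1.and (A2.and (A3.and (A4.and (A5.and (A6.and
    (A7.and (A8.and A9)))))))))
  refine ⟨d0, fun d hd σ hσ hσ1 hσ2 => ?_⟩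
  obtain ⟨B0, B1, B2, B3, B4, B5, B6, B7, B8, B9⟩ := hd0 d hd
  clear A0 A1 A2 A3 A4 A5 A6 A7 A8 A9 hd0
  set D : ℝ := (d : ℝ) with hD
  set L : ℕ := ⌊D ^ (1 - e)⌋₊ with hL
  have hD1 : 1 < D := by
    have : (1 : ℝ) < Real.exp 1 := by
      have := Real.add_one_lt_exp (one_ne_zero : (1:ℝ) ≠ 0)
      linarith
    linarith
  have hD0 : 0 < D := by linarith
  set lg := Real.log D with hlg
  have hlg1 : 1 ≤ lg := by
    rw [hlg, Real.le_log_iff_exp_le hD0]; exact B0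
  have hl8 : lg ^ 8 = (lg ^ 2) ^ 4 := by ring
  set t : ℝ := lg ^ 2 with ht
  have ht0 : 0 < t := by positivity
  have ht1 : 1 ≤ t := one_le_pow₀ hlg1
  have ht4 : 1 ≤ t ^ 4 := one_le_pow₀ ht1
  have hst : 16 * (1 + 2 * s2) ≤ e * t := by
    have g1 : 16 * (1 + 2 * s2) / e ≤ lg := B1
    rw [div_le_iff₀ he] at g1
    have g2 : lg ≤ t := by
      rw [ht, sq]
      exact le_mul_of_one_le_left (by linarith) hlg1
    have g3 := mul_le_mul_of_nonneg_left g2 he.le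
    linarith
  -- `L`
  have hP0 : 0 ≤ D ^ (1 - e) := Real.rpow_nonneg hD0.le _
  have hLle : (L : ℝ) ≤ D ^ (1 - e) := Nat.floor_le hP0
  have hL1 : (1 : ℝ) ≤ L := by exact_mod_cast B9
  have hLge : D ^ (1 - e) / 2 ≤ L := by
    have : D ^ (1 - e) < L + 1 := Nat.lt_floor_add_one _
    linarith
  have hPD : D ^ (1 - e) ≤ D := by
    calc D ^ (1 - e) ≤ D ^ (1 : ℝ) := Real.rpow_le_rpow_of_exponent_le hD1.le (by linarith)
      _ = D := Real.rpow_one D
  have hLD : (L : ℝ) ≤ D := hLle.trans hPD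
  have hLd : L ≤ d := by
    have h : (L : ℝ) ≤ (d : ℝ) := hLD
    exact_mod_cast h
  rw [hl8]
  -- `L2`
  set q : ℝ := (L : ℝ) / t ^ 4 with hq
  have h2t : 2 * t ^ 4 ≤ L := by
    have h : 4 * lg ^ 8 ≤ D ^ (1 - e) := B3
    rw [hl8] at h
    linarith
  have hq1 : 1 ≤ q := by
    rw [hq, le_div_iff₀ (by positivity), one_mul]
    linarith
  set L2 : ℕ := ⌊q⌋₊ with hL2
  have hL2q : (L2 : ℝ) ≤ q := Nat.floor_le (by linarith)
  have hL21 : 1 ≤ L2 := by
    rw [hL2]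
    exact Nat.le_floor (by exact_mod_cast hq1)
  have hL2g : q / 2 ≤ L2 := by
    have h : q < L2 + 1 := Nat.lt_floor_add_one _
    have h' : (1 : ℝ) ≤ L2 := by exact_mod_cast hL21
    linarith
  have hqL : q ≤ L := by
    rw [hq, div_le_iff₀ (by positivity)]
    exact le_mul_of_one_le_right (by linarith) ht4
  have hL2L : L2 ≤ L := by
    have : (L2 : ℝ) ≤ L := hL2q.trans hqL
    exact_mod_cast this
  have hL2t : (L2 : ℝ) * t ^ 4 ≤ L := by
    rw [hq, le_div_iff₀ (by positivity)] at hL2q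
    exact hL2q
  -- `x0`
  set x0 : ℕ := ⌈t ^ 4⌉₊ with hx0
  have hx0t : t ^ 4 ≤ x0 := Nat.le_ceil _
  have hx0u : (x0 : ℝ) ≤ 2 * t ^ 4 := by
    have h : (x0 : ℝ) < t ^ 4 + 1 := Nat.ceil_lt_add_one (by positivity)
    linarith
  have hx01 : 1 ≤ x0 := by
    have h : (1 : ℝ) ≤ x0 := ht4.trans hx0t
    exact_mod_cast h
  have hx0L : x0 ≤ L := by
    have h : (x0 : ℝ) ≤ L := hx0u.trans h2t
    exact_mod_cast h
  -- the event
  set Q : ℝ := PP.real {ω | ∀ x ∈ Finset.Icc x0 L2, -(e / 4 * Real.sqrt x) ≤ Ch ω L x} with hQ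
  have hQ0 : 0 ≤ Q := measureReal_nonneg
  have P1 : PP.real {ω | ∀ k ∈ Finset.Icc x0 L2,
      -(D * t + k * (D / Real.sqrt L) * t) ≤
        ∑ j ∈ Finset.Icc 2 L, ((min j k : ℕ) : ℝ) * (geo σ ω j : ℝ)} ≤
      Q + (1 * Real.exp (-(t / 4)) + 2 * L * Real.exp (-(t ^ 2 / 2))) := by
    have c1 := tail1 h1 ht0.le
    have c2 := h3 σ L t hσ B9 ht0.le
    have c3 : {ω : ℕ → ℝ | ∀ k ∈ Finset.Icc x0 L2,
        -(D * t + k * (D / Real.sqrt L) * t) ≤
          ∑ j ∈ Finset.Icc 2 L, ((min j k : ℕ) : ℝ) * (geo σ ω j : ℝ)} ⊆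
        {ω | ∀ x ∈ Finset.Icc x0 L2, -(e / 4 * Real.sqrt x) ≤ Ch ω L x} ∪
        ({ω | t ≤ |ω 1|} ∪
        {ω | ∃ x ∈ Finset.Icc 1 L, x * Real.sqrt L * t ≤ |Cg σ ω L x - Ch ω L x / σ|}) := by
      intro ω hω
      by_cases g1 : t ≤ |ω 1|
      · exact Or.inr (Or.inl g1)
      by_cases g2 : ∃ x ∈ Finset.Icc 1 L, x * Real.sqrt L * t ≤ |Cg σ ω L x - Ch ω L x / σ|
      · exact Or.inr (Or.inr g2)
      left
      push Not at g1 g2
      exact det2 hσ ht1 he hs2 B9 hL2L hLd hx01 hx0t hL2t hσ2 hst g1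
        ((h2 (σ * (1 : ℕ)) (by rw [Nat.cast_one, mul_one]; exact hσ)).2.2.2.2 (ω 1)) g2 hω
    refine (measureReal_mono c3).trans ?_
    refine (measureReal_union_le _ _).trans (add_le_add le_rfl ?_)
    refine (measureReal_union_le _ _).trans (add_le_add ?_ c2)
    rw [c1, one_mul]
    exact Real.exp_le_exp.2 (by linarith)
  -- the bound of `Q`
  have k0 := core2 h4 h6 hc h4b he he1 hL21 hL2L hx01 hx0L
  rw [← hQ] at k0
  have hL0 : (0 : ℝ) < L := by linarith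
  have hL20 : (0 : ℝ) < L2 := by exact_mod_cast hL21
  have hx00 : (0 : ℝ) < x0 := by exact_mod_cast hx01
  have k1 : Real.exp (-((4 / e) * ((e / 4) ^ 2 * (1 + Real.log L)))) =
      (Real.exp (e / 4) * (L : ℝ) ^ (e / 4))⁻¹ := by
    rw [Real.rpow_def_of_pos hL0, ← Real.exp_add, ← Real.exp_neg]
    congr 1
    field_simp
  have k2 : ((L2 : ℝ) / L) ^ κ1 = (((L : ℝ) / L2) ^ κ1)⁻¹ := by
    rw [← Real.inv_rpow (by positivity), inv_div]
  have k2' : (((1 : ℕ) : ℝ) / x0) ^ κ1 = ((x0 : ℝ) ^ κ1)⁻¹ := by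
    rw [← Real.inv_rpow hx00.le, Nat.cast_one, one_div]
  have B4' : 2 * t ^ 4 ≤ D ^ (e / κ1) := by
    rw [← hl8]
    exact B4
  have k3 : ((L : ℝ) / L2) ^ κ1 ≤ D ^ e := by
    have m1 : (L : ℝ) / L2 ≤ D ^ (e / κ1) := by
      refine le_trans ?_ B4'
      rw [div_le_iff₀ hL20]
      have : (2 * t ^ 4) * (q / 2) = L := by
        rw [hq]
        have : t ^ 4 ≠ 0 := by positivity
        field_simp
      calc (L : ℝ) = (2 * t ^ 4) * (q / 2) := this.symm
        _ ≤ (2 * t ^ 4) * L2 := mul_le_mul_of_nonneg_left hL2g (by positivity)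
    calc ((L : ℝ) / L2) ^ κ1 ≤ (D ^ (e / κ1)) ^ κ1 :=
          Real.rpow_le_rpow (by positivity) m1 hκ1.le
      _ = D ^ e := by
          rw [← Real.rpow_mul hD0.le, div_mul_cancel₀ _ hκ1.ne']
  have k3' : (x0 : ℝ) ^ κ1 ≤ D ^ e := by
    calc (x0 : ℝ) ^ κ1 ≤ (D ^ (e / κ1)) ^ κ1 :=
          Real.rpow_le_rpow hx00.le (hx0u.trans B4') hκ1.le
      _ = D ^ e := by
          rw [← Real.rpow_mul hD0.le, div_mul_cancel₀ _ hκ1.ne']
  have k4 : Real.exp (e / 4) ≤ 3 := by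
    calc Real.exp (e / 4) ≤ Real.exp 1 := Real.exp_le_exp.2 (by linarith)
      _ ≤ 3 := by have := Real.exp_one_lt_d9; linarith
  have k5 : (L : ℝ) ^ (e / 4) ≤ D ^ e := by
    calc (L : ℝ) ^ (e / 4) ≤ D ^ (e / 4) := Real.rpow_le_rpow (by linarith) hLD (by positivity)
      _ ≤ D ^ e := Real.rpow_le_rpow_of_exponent_le hD1.le (by linarith)
  have k6 : uu L ≤ 2 ^ θ * D ^ (-(θ * (1 - e))) * D ^ e := by
    refine B2.trans ?_
    rw [Real.rpow_add hL0]
    refine mul_le_mul ?_ (Real.rpow_le_rpow (by linarith) hLD he.le) (by positivity)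
      (by positivity)
    rw [Real.rpow_neg (by linarith), Real.rpow_neg hD0.le, mul_comm θ, Real.rpow_mul hD0.le]
    rw [← div_eq_mul_inv, ← Real.div_rpow (by norm_num) hP0, ← Real.inv_rpow (by linarith)]
    refine Real.rpow_le_rpow (by positivity) ?_ hθ
    rw [inv_le_comm₀ (by linarith) (by positivity), inv_div]
    exact hLge
  have k7 : Q ^ (1 + e) ≤ D ^ (5 * e - θ * (1 - e)) := by
    rw [k1, k2, k2'] at k0
    set a := Real.exp (e / 4) * (L : ℝ) ^ (e / 4) with ha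
    set b := ((L : ℝ) / L2) ^ κ1 with hb
    set b' := (x0 : ℝ) ^ κ1 with hb'
    have ha0 : 0 < a := by positivity
    have hb0 : 0 < b := by positivity
    have hb'0 : 0 < b' := by positivity
    have m1 : Q ^ (1 + e) ≤ uu L * a * b * b' / (c * c) := by
      have : Q ^ (1 + e) * a⁻¹ * (c * b⁻¹) * (c * b'⁻¹) =
          Q ^ (1 + e) * (c * c) / (a * b * b') := by
        field_simp
      rw [this, div_le_iff₀ (by positivity)] at k0
      rw [le_div_iff₀ (by positivity)]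
      linarith
    have m2 : a ≤ 3 * D ^ e := mul_le_mul k4 k5 (by positivity) (by norm_num)
    have hDe : 0 < D ^ e := Real.rpow_pos_of_pos hD0 _
    calc Q ^ (1 + e) ≤ uu L * a * b * b' / (c * c) := m1
      _ ≤ (2 ^ θ * D ^ (-(θ * (1 - e))) * D ^ e) * (3 * D ^ e) * D ^ e * D ^ e / (c * c) := by
          refine div_le_div_of_nonneg_right ?_ (by positivity)
          refine mul_le_mul (mul_le_mul (mul_le_mul k6 m2 ha0.le (by positivity)) k3 hb0.le
            (by positivity)) k3' hb'0.le (by positivity)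
      _ = (3 * 2 ^ θ / (c * c)) * (D ^ (-(θ * (1 - e))) * D ^ e * D ^ e * D ^ e * D ^ e) := by
          ring
      _ ≤ D ^ e * (D ^ (-(θ * (1 - e))) * D ^ e * D ^ e * D ^ e * D ^ e) :=
          mul_le_mul_of_nonneg_right B5 (by positivity)
      _ = D ^ (5 * e - θ * (1 - e)) := by
          rw [← Real.rpow_add hD0, ← Real.rpow_add hD0, ← Real.rpow_add hD0, ← Real.rpow_add hD0,
            ← Real.rpow_add hD0]
          congr 1
          ring
  have k8 : Q ≤ D ^ (-θ + ε / 2) := by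
    have m1 : Q ^ (1 + e) ≤ (D ^ (-θ + ε / 2)) ^ (1 + e) := by
      refine k7.trans ?_
      rw [← Real.rpow_mul hD0.le]
      refine Real.rpow_le_rpow_of_exponent_le hD1.le ?_
      linarith [mul_pos hε he]
    exact (Real.rpow_le_rpow_iff hQ0 (by positivity) (by linarith)).1 m1
  -- the exceptional probabilities
  have w0 : Real.exp (-(t / 4)) ≤ D ^ (-θ) * D ^ (-2 : ℝ) := by
    rw [← Real.rpow_add hD0, Real.rpow_def_of_pos hD0]
    refine Real.exp_le_exp.2 ?_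
    rw [ht]
    linarith [mul_le_mul_of_nonneg_left B7 (show 0 ≤ lg by linarith)]
  have w1 : Real.exp (-(t ^ 2 / 2)) ≤ D ^ (-θ) * D ^ (-2 : ℝ) := by
    refine le_trans (Real.exp_le_exp.2 ?_) w0
    linarith [mul_le_mul_of_nonneg_left ht1 ht0.le]
  have w2 : D ^ (-2 : ℝ) = 1 / (D * D) := by
    rw [Real.rpow_neg hD0.le, one_div]
    congr 1
    rw [← sq]
    exact_mod_cast Real.rpow_natCast D 2
  have wθ : 0 < D ^ (-θ) := Real.rpow_pos_of_pos hD0 _
  have w3 : 1 * Real.exp (-(t / 4)) + 2 * L * Real.exp (-(t ^ 2 / 2)) ≤ D ^ (-θ) * (2 / 3) := by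
    have m1 : 1 * Real.exp (-(t / 4)) ≤ 1 * (D ^ (-θ) * (1 / (D * D))) := by
      rw [← w2]; exact mul_le_mul_of_nonneg_left w0 zero_le_one
    have m2 : 2 * L * Real.exp (-(t ^ 2 / 2)) ≤ 2 * D * (D ^ (-θ) * (1 / (D * D))) := by
      rw [← w2]
      exact mul_le_mul (by linarith) w1 (Real.exp_pos _).le (by positivity)
    have m3 : 1 * (1 / (D * D)) ≤ 1 / 3 := by
      rw [mul_one_div, div_le_iff₀ (by positivity)]
      linarith [mul_le_mul_of_nonneg_left hD1.le hD0.le]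
    have m4 : 2 * D * (1 / (D * D)) ≤ 1 / 3 := by
      rw [mul_one_div, div_le_iff₀ (by positivity)]
      linarith [mul_le_mul_of_nonneg_left (show 6 ≤ D by linarith) hD0.le]
    calc 1 * Real.exp (-(t / 4)) + 2 * L * Real.exp (-(t ^ 2 / 2)) ≤
          D ^ (-θ) * (1 * (1 / (D * D)) + 2 * D * (1 / (D * D))) := by
            refine (add_le_add m1 m2).trans_eq ?_
            ring
      _ ≤ D ^ (-θ) * (2 / 3) := mul_le_mul_of_nonneg_left (by linarith) wθ.le
  have w4 : D ^ (-θ + ε) = D ^ (-θ + ε / 2) * D ^ (ε / 2) := by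
    rw [← Real.rpow_add hD0]
    congr 1
    ring
  have w5 : D ^ (-θ) ≤ D ^ (-θ + ε / 2) :=
    Real.rpow_le_rpow_of_exponent_le hD1.le (by linarith)
  have w6 : 0 < D ^ (-θ + ε / 2) := Real.rpow_pos_of_pos hD0 _
  refine P1.trans ?_
  rw [w4]
  linarith [mul_le_mul_of_nonneg_left B6 w6.le]

end Pool.Agent.H996.GP174
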